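import Pool.Agent.H825R2.CD.Defs

/-! Constant distance code pairs for alphabets of `8`, `9`, `10`, `11` letters (`Q = q - 1` between
`7` and `10`): statements of the tasks. The combinatorial statements of
`Pool.Agent.H825R2.CD.Defs` are reused. -/

namespace R745CD

open Finset H825CD

/-- hypotheses on the pure letters at one coordinate (`k`, `l` numbers of pure letters) -/
structure PureN (Q : ℕ) (m : ℝ) (k l : ℕ) (a b z w : ℝ) : Prop where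
  hQ : 7 ≤ Q
  hQ2 : Q ≤ 10
  hm0 : 0 ≤ m
  hm : (qb Q : ℝ) * m ≤ 1
  hkl : k + l ≤ Q
  ha0 : 0 ≤ a
  hb0 : 0 ≤ b
  ha1 : a ≤ 1
  hb1 : b ≤ 1
  hz : 0 ≤ z
  hw : 0 ≤ w
  ha : a ≤ k * z
  hb : b ≤ l * w
  h1 : z * (1 - b + w) ≤ m
  h2 : w * (1 - a + z) ≤ m

/-- pure letters carry little weight -/
def N_pure : Prop := ∀ (Q : ℕ) (m : ℝ) (k l : ℕ) (a b z w : ℝ), PureN Q m k l a b z w →
  a ≤ 3 / 2 * k * m ∧ b ≤ 3 / 2 * l * m ∧ a ≤ 1 / 2 ∧ b ≤ 1 / 2 ∧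
  (k + l + 1 ≤ Q → a ≤ 2 / 5 ∧ b ≤ 2 / 5 ∧ a + b ≤ 1 / 2)

/-- there is a dominating common letter -/
def N_dom : Prop := ∀ (N : ℕ) (C : Finset (Fin N)) (α β : Fin N → ℝ) (Q : ℕ) (m : ℝ) (k l : ℕ)
  (a b z w : ℝ),
  PureN Q m k l a b z w → (∀ x ∈ C, 0 ≤ α x) → (∀ x ∈ C, 0 ≤ β x) →
  ∑ x ∈ C, α x + a = 1 → ∑ x ∈ C, β x + b = 1 →
  (∀ P ⊆ C, (∑ x ∈ P, α x + z) * (∑ x ∈ C \ P, β x + w) ≤ m) →
  C.card + k + l ≤ Q + 1 →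
  ∃ t ∈ C, 1 / 2 ≤ α t ∧ 1 / 2 ≤ β t

/-- a coordinate with at least two common letters is not critical -/
def N_nc : Prop := ∀ (N : ℕ) (C : Finset (Fin N)) (α β : Fin N → ℝ) (Q : ℕ) (m : ℝ) (k l : ℕ)
  (a b z w : ℝ),
  PureN Q m k l a b z w → (∀ x ∈ C, 0 ≤ α x) → (∀ x ∈ C, 0 ≤ β x) →
  ∑ x ∈ C, α x + a = 1 → ∑ x ∈ C, β x + b = 1 →
  (∀ P ⊆ C, (∑ x ∈ P, α x + z) * (∑ x ∈ C \ P, β x + w) ≤ m) →
  2 ≤ C.card → C.card + k + l ≤ Q + 1 → (∃ t ∈ C, 1 / 2 ≤ α t ∧ 1 / 2 ≤ β t) →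
  1 - ∑ x ∈ C, α x * β x ≤ Q * m

/-- normalised data at the critical coordinate `j` and the partner coordinate `i` -/
structure FinN (Q : ℕ) (m : ℝ) (k l K L : ℕ) (aj bj zj wj ai bi zi wi p r : ℝ) : Prop where
  hm : (qb Q : ℝ) * m ≤ 1
  hm0 : 0 < m
  hk : 1 ≤ k
  hl : 1 ≤ l
  hkl : k + l ≤ Q
  hK : 1 ≤ K
  hL : 1 ≤ L
  hKL : K + L ≤ Q
  haj0 : 0 < aj
  hbj0 : 0 < bj
  hai0 : 0 < ai
  hbi0 : 0 < bi
  haj2 : aj ≤ 1 / 2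
  hbj2 : bj ≤ 1 / 2
  hai2 : ai ≤ 1 / 2
  hbi2 : bi ≤ 1 / 2
  haj : aj ≤ k * zj
  hbj : bj ≤ l * wj
  hai : ai ≤ K * zi
  hbi : bi ≤ L * wi
  hJ1 : zj * (1 - bj + wj) ≤ m
  hJ2 : wj * (1 - aj + zj) ≤ m
  hJ3 : Q * m < aj + bj - aj * bj
  hI1 : zi * (1 - bi) ≤ m
  hI2 : wi * (1 - ai) ≤ m
  hp : 1 - aj - ai ≤ p
  hr : 1 - bj - bi ≤ r

/-- final contradiction, no twins -/
def N_final (Q : ℕ) : Prop := ∀ (m : ℝ) (k l K L : ℕ)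
    (aj bj zj wj ai bi zi wi p r Z10 Z01 Z11 W10 W01 W11 : ℝ),
  FinN Q m k l K L aj bj zj wj ai bi zi wi p r →
  0 ≤ Z10 → 0 ≤ Z01 → 0 ≤ Z11 → 0 ≤ W10 → 0 ≤ W01 → 0 ≤ W11 →
  p * (r + 2 * Q * (W10 + W01) + Q ^ 2 * W11) ≤ 1 →
  r * (p + 2 * Q * (Z10 + Z01) + Q ^ 2 * Z11) ≤ 1 →
  zj ≤ Z10 + K * Z11 → wj ≤ W10 + L * W11 →
  Z01 ≤ zi → W01 ≤ wi →
  1 - aj - K * Z01 ≤ p → 1 - bj - L * W01 ≤ r →
  (qb Q : ℝ) * (p * W11) ≤ m → (qb Q : ℝ) * (r * Z11) ≤ m → False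

/-- final contradiction, `A` twin -/
def N_twin (Q : ℕ) : Prop := ∀ (m : ℝ) (k l K L : ℕ)
    (aj bj zj wj ai bi zi wi p r Z11 : ℝ),
  FinN Q m k l K L aj bj zj wj ai bi zi wi p r → 0 ≤ Z11 → zj ≤ K * Z11 →
  (qb Q : ℝ) * (r * Z11) ≤ m → False

/-- two more relations between the erased counts -/
def N_rel : Prop := ∀ (ι : Type) [Fintype ι] [DecidableEq ι] (Q δ : ℕ)
  (A B : Finset (ι → Fin (Q + 1))), (∀ a ∈ A, ∀ b ∈ B, hammingDist a b = δ) →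
  ∀ j i : ι, i ≠ j → ∀ x y : Fin (Q + 1), y ∈ com A B i →
  A.card ≤ p00 A j i x y + na A j x + max 1 (pur A B i).card * z01 A j i x y ∧
  z01 A j i x y ≤ nz A i y

/-- one coordinate, from the real lemmas -/
def N_coord : Prop := ∀ (ι : Type) [Fintype ι] [DecidableEq ι] (Q : ℕ) (S : Finset ι) (δ M : ℕ)
  (A B : Finset (ι → Fin (Q + 1))), 7 ≤ Q → Q ≤ 10 → Ctx S δ M A B → ∀ j ∈ S,
  (∃ t ∈ com A B j, 2 * na A j t ≤ A.card ∧ 2 * na B j t ≤ B.card) ∧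
  (Q * M + ∑ x : Fin (Q + 1), cnt A j {x} * cnt B j {x} < A.card * B.card →
    (com A B j).card = 1)

/-- no context exists -/
def N_false : Prop := ∀ (ι : Type) [Fintype ι] [DecidableEq ι] (Q : ℕ) (S : Finset ι) (δ M : ℕ)
  (A B : Finset (ι → Fin (Q + 1))), 7 ≤ Q → Q ≤ 10 → ¬ Ctx S δ M A B

/-- the theorem -/
def N_main : Prop := ∀ (ι : Type) [Fintype ι] [DecidableEq ι] (Q : ℕ), 7 ≤ Q → Q ≤ 10 →
  ∀ (n : ℕ) (S : Finset ι), S.card = n → ∀ (δ : ℕ) (A B : Finset (ι → Fin (Q + 1))),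
  Sup S A → Sup S B → (∀ a ∈ A, ∀ b ∈ B, hammingDist a b = δ) → A.card * B.card ≤ FF Q n δ

/-! The tasks:
* R1N : `theorem tN_pure : N_pure`
* R2N : `theorem tN_dom (h : N_pure) : N_dom`
* R3N : `theorem tN_nc (h : N_pure) : N_nc`
* F7, F8, F9, F10 : `theorem tN_final7 : N_final 7`, ... , `theorem tN_final10 : N_final 10`
* W : `theorem tN_twin (Q : ℕ) (h1 : 7 ≤ Q) (h2 : Q ≤ 10) : N_twin Q`
* REL : `theorem tN_rel (h : S_dist) : N_rel`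
* T1N : `theorem tN_coord (hs : S_symm) (h1 : S_split) (h2 : S_struct) (h3 : N_dom) (h4 : N_nc)
    (h5 : S_FF) : N_coord`
* T2N : `theorem tN_false (hsy : S_symm) (hst : S_struct) (hcr : S_crit) (hfi : S_fib)
    (hs1 : S_split1) (hV : S_V) (hSS : S_SS) (hre : S_rel) (hpa : S_partner) (hFF : S_FF)
    (hre2 : N_rel) (hfin : ∀ Q : ℕ, 7 ≤ Q → Q ≤ 10 → N_final Q)
    (htw : ∀ Q : ℕ, 7 ≤ Q → Q ≤ 10 → N_twin Q) (hco : N_coord) : N_false`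
* T3N : `theorem tN_main (h1 : N_false) (h2 : S_FF) : N_main`
-/

end R745CD
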