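import Pool.Agent.H825R2.CD.Top
import Pool.Agent.R745.CDN.Defs
import Pool.Agent.R928.CDN.R1N
import Pool.Agent.H152R2.CDN.R2N
import Pool.Agent.R916.CDN.R3N
import Pool.Agent.R687.CDN.F7
import Pool.Agent.R123.CDN.F8
import Pool.Agent.R687.CDN.F9
import Pool.Agent.R687.CDN.F10
import Pool.Agent.R450.CDN.W
import Pool.Agent.R699.CDN.REL
import Pool.Agent.R536.CDN.T1N
import Pool.Agent.R536.CDN.T2N
import Pool.Agent.R971.CDN.T3N

namespace R745CD
open H825CD

theorem allN_false : N_false :=
  tN_false t_symm (t_struct t_dist) t_crit (t_fib t_dist)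
    (t_split1 t_dist (t_split t_dist) (t_struct t_dist)) (t_V t_dist) (t_SS t_dist)
    (t_rel t_dist) t_partner t_FF (tN_rel t_dist)
    (fun Q h1 h2 => by
      interval_cases Q
      · exact tN_final7
      · exact tN_final8
      · exact tN_final9
      · exact tN_final10)
    tN_twin
    (tN_coord t_symm (t_split t_dist) (t_struct t_dist) (tN_dom tN_pure) (tN_nc tN_pure) t_FF)

theorem allN_main : N_main := tN_main allN_false t_FF

end R745CD
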